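import Pool.Agent.Helper98.HQ.Spec

set_option autoImplicit false

open MeasureTheory Filter Topology
open scoped ENNReal NNReal

namespace Pool.Agent.Helper45.HQ.RED1

open Pool.Agent.Helper98.HQ

theorem main : S_RED1 := by
  intro k μT μS h
  obtain ⟨pT, pS, T0, S0, T2, S2, Tpos, Spos, stab⟩ := h
  have e1 : ∫ u : ℝ × ℝ, u.1 ∂(μT.prod μS) = ∫ t, t ∂μT := by
    have := integral_fun_fst (μ := μT) (ν := μS) (f := fun t : ℝ => t)
    simpa using this
  have e2 : ∫ u : ℝ × ℝ, u.2 ∂(μT.prod μS) = ∫ s, s ∂μS := by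
    have := integral_fun_snd (μ := μT) (ν := μS) (f := fun t : ℝ => t)
    simpa using this
  have e3 : ∫ u : ℝ × ℝ, u.2 ^ 2 ∂(μT.prod μS) = ∫ s, s ^ 2 ∂μS := by
    have := integral_fun_snd (μ := μT) (ν := μS) (f := fun t : ℝ => t ^ 2)
    simpa using this
  refine ⟨⟨inferInstance, ?_, ?_, ?_, ?_, ?_, ?_⟩, e1, e2, e3⟩
  · have h1 : ∀ᵐ u ∂(μT.prod μS), 0 ≤ u.1 :=
      (Measure.quasiMeasurePreserving_fst (μ := μT) (ν := μS)).ae T0
    have h2 : ∀ᵐ u ∂(μT.prod μS), 0 ≤ u.2 :=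
      (Measure.quasiMeasurePreserving_snd (μ := μT) (ν := μS)).ae S0
    filter_upwards [h1, h2] with u h3 h4
    exact ⟨h3, h4⟩
  · exact T2.comp_fst μS
  · exact S2.comp_snd μT
  · rw [e1]; exact Tpos
  · rw [e2]; exact Spos
  · rw [e1, e2]; exact stab

end Pool.Agent.Helper45.HQ.RED1
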